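import Pool.Agent.U252.LV.D

/-! # Stability of the extremal problem: the main inequality -/

set_option autoImplicit false

open MeasureTheory Set Filter Topology

namespace Pool.Agent.U252.ST

open Pool.Agent.Y749.Rig Pool.Agent.U252.LV

/-- `sin (2 π x) / (2 π x)`, with the value `0` at `x = 0` -/
noncomputable def q (x : ℝ) : ℝ := Real.sin (2 * Real.pi * x) / (2 * Real.pi * x)

/-- the excess: the contribution of the different zeros -/
noncomputable def ex (T : ℝ) : ℝ := tt 2 T 0 - (Mp T).real {0}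

/-- the weight -/
noncomputable def wl (T x : ℝ) : ℝ := ww (2 * Real.pi * x / Real.log T)

lemma wl_cont (T : ℝ) : Continuous (wl T) := by
  have := ww_cont
  unfold wl
  fun_prop

lemma wl_pos (T x : ℝ) : 0 < wl T x := ww_pos _

lemma wl_le (T x : ℝ) : wl T x ≤ 1 := ww_le _

lemma wl_zero (T : ℝ) : wl T 0 = 1 := by
  unfold wl
  rw [mul_zero, zero_div, ww_zero]

lemma q_zero : q 0 = 0 := by unfold q; simp

lemma q_sq {x : ℝ} (hx : x ≠ 0) : fl (tr 2) x = q x ^ 2 := by
  rw [fl_tr (by norm_num) hx]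
  unfold q
  rw [mul_comm Real.pi 2]

lemma q_meas : Measurable q := by
  unfold q
  exact (by fun_prop : Measurable fun x : ℝ => Real.sin (2 * Real.pi * x)).div (by fun_prop)

lemma q_abs (x : ℝ) : |q x| ≤ 1 := by
  unfold q
  rw [abs_div]
  exact div_le_one_of_le₀ (Real.abs_sin_le_abs) (abs_nonneg _)

lemma pw_wl (h T x : ℝ) : pw h T x = fl (tr h) x * wl T x := rfl

/-- the excess as an integral over the different zeros -/
lemma ex_eq (T : ℝ) : ∫ x, wl T x * q x ^ 2 ∂(Mp T) = ex T := by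
  have := Mp_fin T
  have h2 : (0 : ℝ) < 2 := by norm_num
  have i1 : Integrable (fun x => wl T x * q x ^ 2) (Mp T) := by
    refine Integrable.of_bound ((wl_cont T).measurable.mul (q_meas.pow_const 2)).aestronglyMeasurable 1
      (ae_of_all _ fun x => ?_)
    rw [norm_mul, Real.norm_eq_abs, Real.norm_eq_abs, abs_of_pos (wl_pos T x), abs_pow]
    have a1 := wl_le T x
    have a2 := wl_pos T x
    have a3 : |q x| ^ 2 ≤ 1 := pow_le_one₀ (abs_nonneg _) (q_abs x)
    have a4 : 0 ≤ |q x| ^ 2 := by positivity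
    nlinarith
  have i2 : Integrable (fun x => Set.indicator ({0} : Set ℝ) (fun _ => (1 : ℝ)) x) (Mp T) :=
    (integrable_const (1 : ℝ)).indicator (measurableSet_singleton 0)
  have e1 : tt 2 T 0 = ∫ x, (wl T x * q x ^ 2 +
      Set.indicator ({0} : Set ℝ) (fun _ => (1 : ℝ)) x) ∂(Mp T) := by
    rw [tt_eq h2]
    unfold KK
    refine integral_congr_ae (ae_of_all _ fun x => ?_)
    simp only
    rw [mul_zero, zero_mul, Real.cos_zero, mul_one, pw_wl]
    by_cases hx : x = 0
    · subst hx
      rw [fl_tr_zero h2, wl_zero, q_zero]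
      simp
    · rw [q_sq hx, Set.indicator_of_notMem (by simpa using hx)]
      ring
  unfold ex
  rw [e1, integral_add i1 i2, integral_indicator_const _ (measurableSet_singleton 0)]
  simp

lemma ex_nonneg (T : ℝ) : 0 ≤ ex T := by
  rw [← ex_eq]
  exact integral_nonneg fun x => mul_nonneg (wl_pos T x).le (by positivity)

section

variable {μ : Measure ℝ} [IsFiniteMeasure μ] {p : ℝ → ℝ}

lemma KK_cont (hp : Continuous p) (h0 : ∀ x, 0 ≤ p x) (h1 : ∀ x, p x ≤ 1) :
    Continuous (KK μ p) := by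
  unfold KK
  refine continuous_of_dominated (bound := fun _ => (1 : ℝ)) ?_ ?_ (integrable_const _) ?_
  · intro c
    exact Continuous.aestronglyMeasurable (by fun_prop)
  · intro c
    refine ae_of_all _ fun x => ?_
    rw [norm_mul, Real.norm_eq_abs, Real.norm_eq_abs, abs_of_nonneg (h0 x)]
    have h2 := Real.abs_cos_le_one (2 * Real.pi * c * x)
    have h3 := abs_nonneg (Real.cos (2 * Real.pi * c * x))
    have h4 := h0 x
    have h5 := h1 x
    nlinarith
  · refine ae_of_all _ fun x => ?_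
    fun_prop

lemma KK_fub (hp : Continuous p) (h0 : ∀ x, 0 ≤ p x) (h1 : ∀ x, p x ≤ 1) {a b : ℝ} (hab : a ≤ b)
    (d : ℝ) : ∫ s in a..b, KK μ p (s - d) =
      ∫ x, p x * (∫ s in a..b, Real.cos (2 * Real.pi * (s - d) * x)) ∂μ := by
  unfold KK
  have e1 : ∀ x, p x * (∫ s in a..b, Real.cos (2 * Real.pi * (s - d) * x)) =
      ∫ s in Ioc a b, p x * Real.cos (2 * Real.pi * (s - d) * x) := by
    intro x
    rw [intervalIntegral.integral_of_le hab, integral_const_mul]
  simp_rw [e1]
  rw [intervalIntegral.integral_of_le hab, integral_integral_swap]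
  refine Integrable.of_bound ?_ 1 (ae_of_all _ fun y => ?_)
  · apply Continuous.aestronglyMeasurable
    unfold Function.uncurry
    fun_prop
  · unfold Function.uncurry
    rw [norm_mul, Real.norm_eq_abs, Real.norm_eq_abs, abs_of_nonneg (h0 _)]
    have h2 := Real.abs_cos_le_one (2 * Real.pi * (y.1 - d) * y.2)
    have h3 := abs_nonneg (Real.cos (2 * Real.pi * (y.1 - d) * y.2))
    have h4 := h0 y.2
    have h5 := h1 y.2
    nlinarith

end

lemma cos_int {x : ℝ} (hx : x ≠ 0) (a b d : ℝ) :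
    ∫ s in a..b, Real.cos (2 * Real.pi * (s - d) * x) =
      (Real.sin (2 * Real.pi * (b - d) * x) - Real.sin (2 * Real.pi * (a - d) * x)) /
        (2 * Real.pi * x) := by
  have hpi := Real.pi_pos
  have h1 : 2 * Real.pi * x ≠ 0 := by positivity
  have e1 : ∀ s : ℝ, Real.cos (2 * Real.pi * (s - d) * x) =
      Real.cos ((2 * Real.pi * x) * s - 2 * Real.pi * x * d) := by
    intro s
    congr 1
    ring
  simp_rw [e1]
  rw [intervalIntegral.integral_comp_mul_sub (fun y => Real.cos y) h1, integral_cos, smul_eq_mul,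
    show 2 * Real.pi * x * b - 2 * Real.pi * x * d = 2 * Real.pi * (b - d) * x by ring,
    show 2 * Real.pi * x * a - 2 * Real.pi * x * d = 2 * Real.pi * (a - d) * x by ring]
  field_simp

/-- the kernel of the difference -/
lemma cos_diff (c R x : ℝ) :
    (∫ s in (c - R)..(c + R), Real.cos (2 * Real.pi * (s - 0) * x)) -
      (∫ s in (c - R)..(c + R), Real.cos (2 * Real.pi * (s - 2) * x)) =
      -(4 * q x * Real.sin (2 * Real.pi * (c - 1) * x) * Real.sin (2 * Real.pi * R * x)) := by
  by_cases hx : x = 0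
  · subst hx
    rw [q_zero]
    simp
  · have hpi := Real.pi_pos
    rw [cos_int hx, cos_int hx]
    unfold q
    have s1 : ∀ A B : ℝ, Real.sin (A + B) - Real.sin (A - B) = 2 * Real.cos A * Real.sin B := by
      intro A B
      rw [Real.sin_add, Real.sin_sub]
      ring
    have e1 := s1 (2 * Real.pi * c * x) (2 * Real.pi * R * x)
    have e2 := s1 (2 * Real.pi * (c - 2) * x) (2 * Real.pi * R * x)
    have e3 : Real.cos (2 * Real.pi * c * x) - Real.cos (2 * Real.pi * (c - 2) * x) =
        -(2 * Real.sin (2 * Real.pi * (c - 1) * x) * Real.sin (2 * Real.pi * x)) := by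
      rw [show 2 * Real.pi * c * x = 2 * Real.pi * (c - 1) * x + 2 * Real.pi * x by ring,
        show 2 * Real.pi * (c - 2) * x = 2 * Real.pi * (c - 1) * x - 2 * Real.pi * x by ring,
        Real.cos_add, Real.cos_sub]
      ring
    rw [show 2 * Real.pi * (c + R - 0) * x = 2 * Real.pi * c * x + 2 * Real.pi * R * x by ring,
      show 2 * Real.pi * (c - R - 0) * x = 2 * Real.pi * c * x - 2 * Real.pi * R * x by ring,
      show 2 * Real.pi * (c + R - 2) * x =
        2 * Real.pi * (c - 2) * x + 2 * Real.pi * R * x by ring,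
      show 2 * Real.pi * (c - R - 2) * x =
        2 * Real.pi * (c - 2) * x - 2 * Real.pi * R * x by ring, e1, e2, ← sub_div,
      show 2 * Real.cos (2 * Real.pi * c * x) * Real.sin (2 * Real.pi * R * x) -
        2 * Real.cos (2 * Real.pi * (c - 2) * x) * Real.sin (2 * Real.pi * R * x) =
        2 * (Real.cos (2 * Real.pi * c * x) - Real.cos (2 * Real.pi * (c - 2) * x)) *
          Real.sin (2 * Real.pi * R * x) by ring, e3]
    ring

lemma tt_cont {h : ℝ} (hh : 0 < h) (T : ℝ) : Continuous (tt h T) := by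
  have := Mp_fin T
  have e : tt h T = KK (Mp T) (pw h T) := funext fun c => tt_eq hh T c
  rw [e]
  exact KK_cont (pw_cont hh T) (pw_nonneg hh T) (pw_le hh T)

/-- **the main inequality** -/
theorem main_ineq {h : ℝ} (hh : 0 < h) {T : ℝ} (hT : 10 ≤ T) (c : ℝ) {R : ℝ} (hR : 0 ≤ R) :
    (∫ s in (c - R)..(c + R), (tt h T s - tt h T (s - 2))) ^ 2 ≤ 8 * ex T * tt h T 0 := by
  have := Mp_fin T
  have hc := tt_cont hh T
  have hp := pw_cont hh T
  have hp0 := pw_nonneg hh T
  have hp1 := pw_le hh T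
  obtain ⟨J, hJ⟩ : ∃ J : ℝ → ℝ, ∀ x, J x = pw h T x *
      -(4 * q x * Real.sin (2 * Real.pi * (c - 1) * x) * Real.sin (2 * Real.pi * R * x)) :=
    ⟨_, fun x => rfl⟩
  have hab : c - R ≤ c + R := by linarith
  have ic : ∀ (a b : ℝ) (g : ℝ → ℝ), Continuous g → IntervalIntegrable g volume a b :=
    fun a b g hg => hg.intervalIntegrable a b
  -- the left side
  have hKc : Continuous fun x => ∫ s in (c - R)..(c + R), Real.cos (2 * Real.pi * (s - 0) * x) := by
    refine intervalIntegral.continuous_parametric_intervalIntegral_of_continuous' ?_ _ _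
    fun_prop
  have hKc2 : Continuous fun x => ∫ s in (c - R)..(c + R), Real.cos (2 * Real.pi * (s - 2) * x) := by
    refine intervalIntegral.continuous_parametric_intervalIntegral_of_continuous' ?_ _ _
    fun_prop
  have hKb : ∀ d x : ℝ, |∫ s in (c - R)..(c + R), Real.cos (2 * Real.pi * (s - d) * x)| ≤
      2 * R := by
    intro d x
    have h1 := intervalIntegral.norm_integral_le_of_norm_le_const (a := c - R) (b := c + R)
      (f := fun s => Real.cos (2 * Real.pi * (s - d) * x)) (C := 1) fun s _ => by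
        rw [Real.norm_eq_abs]; exact Real.abs_cos_le_one _
    rw [Real.norm_eq_abs, show c + R - (c - R) = 2 * R by ring, one_mul,
      abs_of_nonneg (show (0 : ℝ) ≤ 2 * R by linarith)] at h1
    exact h1
  have iK : ∀ {g : ℝ → ℝ}, Continuous g → (∀ x, |g x| ≤ 2 * R) →
      Integrable (fun x => pw h T x * g x) (Mp T) := fun hg hb => int_bdd hp hp0 hp1 hg hb
  have e1 : ∫ s in (c - R)..(c + R), (tt h T s - tt h T (s - 2)) = ∫ x, J x ∂(Mp T) := by
    rw [intervalIntegral.integral_sub (ic _ _ _ hc) (ic _ _ _ (by fun_prop))]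
    have e2 : ∀ d : ℝ, ∫ s in (c - R)..(c + R), tt h T (s - d) =
        ∫ x, pw h T x * (∫ s in (c - R)..(c + R), Real.cos (2 * Real.pi * (s - d) * x)) ∂(Mp T) := by
      intro d
      rw [← KK_fub hp hp0 hp1 hab d]
      refine intervalIntegral.integral_congr fun s _ => ?_
      exact tt_eq hh T (s - d)
    have e3 := e2 0
    simp only [sub_zero] at e3
    rw [e3, e2 2]
    have e4 := integral_sub (iK hKc (hKb 0)) (iK hKc2 (hKb 2))
    simp only [sub_zero] at e4
    rw [← e4]
    refine integral_congr_ae (ae_of_all _ fun x => ?_)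
    simp only
    rw [hJ, ← cos_diff, ← mul_sub]
    simp only [sub_zero]
  rw [e1]
  -- the three functions
  obtain ⟨C, hC⟩ : ∃ C : ℝ, C = ∫ x, pw h T x * Real.sin (2 * Real.pi * R * x) ^ 2 ∂(Mp T) :=
    ⟨_, rfl⟩
  have iJ : Integrable J (Mp T) := by
    have h1 := (iK hKc (hKb 0)).sub (iK hKc2 (hKb 2))
    refine h1.congr (ae_of_all _ fun x => ?_)
    simp only [Pi.sub_apply]
    rw [hJ, ← cos_diff, ← mul_sub]
  have iA : Integrable (fun x => wl T x * q x ^ 2) (Mp T) := by
    refine Integrable.of_bound ((wl_cont T).measurable.mul (q_meas.pow_const 2)).aestronglyMeasurable 1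
      (ae_of_all _ fun x => ?_)
    rw [norm_mul, Real.norm_eq_abs, Real.norm_eq_abs, abs_of_pos (wl_pos T x), abs_pow]
    have a1 := wl_le T x
    have a2 := wl_pos T x
    have a3 : |q x| ^ 2 ≤ 1 := pow_le_one₀ (abs_nonneg _) (q_abs x)
    have a4 : 0 ≤ |q x| ^ 2 := by positivity
    nlinarith
  have iC : Integrable (fun x => pw h T x * Real.sin (2 * Real.pi * R * x) ^ 2) (Mp T) := by
    refine int_bdd hp hp0 hp1 (by fun_prop) (B := 1) fun x => ?_
    rw [abs_pow]
    exact pow_le_one₀ (abs_nonneg _) (Real.abs_sin_le_one _)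
  have key : ∀ l : ℝ, 0 ≤ ex T * (l * l) + (-2 * ∫ x, J x ∂(Mp T)) * l + 16 * C := by
    intro l
    have e5 : ex T * (l * l) + (-2 * ∫ x, J x ∂(Mp T)) * l + 16 * C =
        ∫ x, ((l * l) * (wl T x * q x ^ 2) + (-2 * l) * J x +
          16 * (pw h T x * Real.sin (2 * Real.pi * R * x) ^ 2)) ∂(Mp T) := by
      have j1 : Integrable (fun x => (l * l) * (wl T x * q x ^ 2)) (Mp T) := iA.const_mul _
      have j2 : Integrable (fun x => (-2 * l) * J x) (Mp T) := iJ.const_mul _
      have j12 : Integrable (fun x => (l * l) * (wl T x * q x ^ 2) + (-2 * l) * J x) (Mp T) :=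
        j1.add j2
      rw [integral_add j12 (iC.const_mul _),
        integral_add j1 j2, integral_const_mul, integral_const_mul,
        integral_const_mul, ex_eq, ← hC]
      ring
    rw [e5]
    refine integral_nonneg fun x => ?_
    simp only [Pi.zero_apply]
    rw [hJ, pw_wl]
    have f0 := fl_tr_nonneg hh x
    have f1 := Pool.Agent.Y749.AH.fl_tr_le hh x
    have w0 := (wl_pos T x).le
    obtain ⟨f, hf⟩ : ∃ f : ℝ, f = fl (tr h) x := ⟨_, rfl⟩
    obtain ⟨w, hw⟩ : ∃ w : ℝ, w = wl T x := ⟨_, rfl⟩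
    obtain ⟨s1, hs1⟩ : ∃ s : ℝ, s = Real.sin (2 * Real.pi * (c - 1) * x) := ⟨_, rfl⟩
    obtain ⟨s2, hs2⟩ : ∃ s : ℝ, s = Real.sin (2 * Real.pi * R * x) := ⟨_, rfl⟩
    rw [← hf] at f0 f1
    rw [← hw] at w0
    rw [← hf, ← hw, ← hs1, ← hs2]
    have t1 : s1 ^ 2 ≤ 1 := by
      rw [hs1, ← sq_abs]
      exact pow_le_one₀ (abs_nonneg _) (Real.abs_sin_le_one _)
    have t2 : 0 ≤ s2 ^ 2 := by positivity
    have t3 : f ^ 2 * s1 ^ 2 ≤ f := by
      have : f ^ 2 ≤ f := by nlinarith
      have h5 : 0 ≤ f ^ 2 := by positivity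
      nlinarith
    have t4 : 0 ≤ w * (l * q x + 4 * f * s1 * s2) ^ 2 := by positivity
    have t5 : w * (f ^ 2 * s1 ^ 2 * s2 ^ 2) ≤ w * (f * s2 ^ 2) :=
      mul_le_mul_of_nonneg_left (mul_le_mul_of_nonneg_right t3 t2) w0
    have t6 : l * l * (w * q x ^ 2) + -2 * l * (f * w * -(4 * q x * s1 * s2)) +
        16 * (f * w * s2 ^ 2) = w * (l * q x + 4 * f * s1 * s2) ^ 2 +
        16 * (w * (f * s2 ^ 2) - w * (f ^ 2 * s1 ^ 2 * s2 ^ 2)) := by ring
    rw [t6]
    linarith
  have hd := discrim_le_zero key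
  unfold discrim at hd
  -- the last integral
  have hC2 : C ≤ tt h T 0 / 2 := by
    have e6 : C = (tt h T 0 - tt h T (2 * R)) / 2 := by
      rw [hC, tt_eq hh, tt_eq hh]
      unfold KK
      rw [← integral_sub (int_cos hp hp0 hp1 _) (int_cos hp hp0 hp1 _), ← integral_div]
      refine integral_congr_ae (ae_of_all _ fun x => ?_)
      simp only
      have h2 := Real.cos_two_mul (2 * Real.pi * R * x)
      have h3 := Real.sin_sq_add_cos_sq (2 * Real.pi * R * x)
      rw [mul_zero, zero_mul, Real.cos_zero,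
        show 2 * Real.pi * (2 * R) * x = 2 * (2 * Real.pi * R * x) by ring, h2]
      have h4 : Real.sin (2 * Real.pi * R * x) ^ 2 = 1 - Real.cos (2 * Real.pi * R * x) ^ 2 := by
        linarith
      rw [h4]
      ring
    rw [e6]
    have := tt_nonneg hh hT (2 * R)
    linarith
  have hex := ex_nonneg T
  nlinarith [mul_le_mul_of_nonneg_left hC2 hex]

end Pool.Agent.U252.ST
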