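import Pool.Agent.U252.ST.A

/-! # The tents and the integrals over intervals -/

set_option autoImplicit false

open MeasureTheory Set Filter Topology

namespace Pool.Agent.U252.ST

open Pool.Agent.Y749.Rig Pool.Agent.U252.LV

lemma Fr_le (T α : ℝ) : |Fr T α| ≤ (Mp T).real univ := by
  have := Mp_fin T
  rw [Fr_eq]
  unfold KK
  have h := norm_integral_le_of_norm_le_const (μ := Mp T) (C := 1)
    (f := fun x => ww (2 * Real.pi * x / Real.log T) * Real.cos (2 * Real.pi * α * x))
    (ae_of_all _ fun x => by
      rw [norm_mul, Real.norm_eq_abs, Real.norm_eq_abs, abs_of_pos (ww_pos _)]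
      have h2 := Real.abs_cos_le_one (2 * Real.pi * α * x)
      have h3 := abs_nonneg (Real.cos (2 * Real.pi * α * x))
      have h4 := (ww_pos (2 * Real.pi * x / Real.log T)).le
      have h5 := ww_le (2 * Real.pi * x / Real.log T)
      nlinarith)
  rw [Real.norm_eq_abs] at h
  simpa using h

lemma tt_shift (h T s : ℝ) : tt h T s = ∫ u, tr h u * Fr T (u + s) := by
  unfold tt
  rw [← integral_add_right_eq_self (fun α => tr h (α - s) * Fr T α) s]
  refine integral_congr_ae (ae_of_all _ fun u => ?_)
  simp only [add_sub_cancel_right]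

/-- the integral of the tents -/
lemma tt_fub {h : ℝ} (hh : 0 < h) (T : ℝ) {A B : ℝ} (hAB : A ≤ B) :
    ∫ s in A..B, tt h T s = ∫ u, tr h u * (∫ α in (A + u)..(B + u), Fr T α) := by
  have hFc := Fr_cont T
  have htc := tr_cont h
  have e1 : ∀ u, tr h u * (∫ α in (A + u)..(B + u), Fr T α) =
      ∫ s in Ioc A B, tr h u * Fr T (u + s) := by
    intro u
    rw [← intervalIntegral.integral_comp_add_right (fun α => Fr T α) u,
      intervalIntegral.integral_of_le hAB, ← integral_const_mul]
    refine integral_congr_ae (ae_of_all _ fun s => ?_)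
    simp only
    rw [add_comm s u]
  simp_rw [e1, tt_shift h T]
  rw [intervalIntegral.integral_of_le hAB, integral_integral_swap]
  have h1 : Integrable (fun y : ℝ × ℝ => (Mp T).real univ * tr h y.2)
      ((volume.restrict (Ioc A B)).prod volume) :=
    (integrable_const ((Mp T).real univ)).mul_prod (tr_int hh)
  refine h1.mono' ?_ (ae_of_all _ fun y => ?_)
  · apply Continuous.aestronglyMeasurable
    unfold Function.uncurry
    fun_prop
  · unfold Function.uncurry
    rw [norm_mul, Real.norm_eq_abs, Real.norm_eq_abs, abs_of_nonneg (tr_nonneg hh _), mul_comm]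
    exact mul_le_mul_of_nonneg_right (Fr_le T _) (tr_nonneg hh _)

lemma trI_int {h : ℝ} (hh : 0 < h) (T A B : ℝ) :
    Integrable fun u => tr h u * (∫ α in (A + u)..(B + u), Fr T α) := by
  have hFc := Fr_cont T
  have htc := tr_cont h
  refine Continuous.integrable_of_hasCompactSupport ?_ ?_
  · have e : ∀ u, ∫ α in (A + u)..(B + u), Fr T α = ∫ s in A..B, Fr T (s + u) := fun u =>
      (intervalIntegral.integral_comp_add_right (fun α => Fr T α) u).symm
    simp_rw [e]
    refine htc.mul ?_
    refine intervalIntegral.continuous_parametric_intervalIntegral_of_continuous' ?_ _ _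
    fun_prop
  · exact (adm_tr hh).hcs.mul_right

/-- **upper sandwich** -/
lemma tt_up {h : ℝ} (hh : 0 < h) {T : ℝ} (hT : 10 ≤ T) {A B : ℝ} (hAB : A ≤ B) :
    ∫ s in A..B, tt h T s ≤ ∫ α in (A - h)..(B + h), Fr T α := by
  have hFc := Fr_cont T
  have e2 : ∫ α in (A - h)..(B + h), Fr T α =
      ∫ u, tr h u * (∫ α in (A - h)..(B + h), Fr T α) := by
    rw [integral_mul_const, int_tr hh, one_mul]
  rw [tt_fub hh T hAB, e2]
  refine integral_mono (trI_int hh T A B) ((tr_int hh).mul_const _) fun u => ?_
  simp only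
  rcases le_or_gt h |u| with h1 | h1
  · rw [tr_supp hh u h1]; simp
  · obtain ⟨h2, h3⟩ := abs_lt.1 h1
    refine mul_le_mul_of_nonneg_left ?_ (tr_nonneg hh _)
    exact intervalIntegral.integral_mono_interval (by linarith) (by linarith) (by linarith)
      (ae_of_all _ fun α => Fr_nonneg hT α) (hFc.intervalIntegrable _ _)

/-- **lower sandwich** -/
lemma tt_low {h : ℝ} (hh : 0 < h) {T : ℝ} (hT : 10 ≤ T) {A B : ℝ} (hAB : A ≤ B) :
    ∫ α in (A + h)..(B - h), Fr T α ≤ ∫ s in A..B, tt h T s := by
  have hFc := Fr_cont T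
  have e2 : ∫ α in (A + h)..(B - h), Fr T α =
      ∫ u, tr h u * (∫ α in (A + h)..(B - h), Fr T α) := by
    rw [integral_mul_const, int_tr hh, one_mul]
  rw [tt_fub hh T hAB, e2]
  refine integral_mono ((tr_int hh).mul_const _) (trI_int hh T A B) fun u => ?_
  simp only
  rcases le_or_gt h |u| with h1 | h1
  · rw [tr_supp hh u h1]; simp
  · obtain ⟨h2, h3⟩ := abs_lt.1 h1
    refine mul_le_mul_of_nonneg_left ?_ (tr_nonneg hh _)
    rcases le_or_gt (A + h) (B - h) with h4 | h4
    · exact intervalIntegral.integral_mono_interval (by linarith) (by linarith) (by linarith)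
        (ae_of_all _ fun α => Fr_nonneg hT α) (hFc.intervalIntegrable _ _)
    · have h5 : 0 ≤ ∫ α in (B - h)..(A + h), Fr T α :=
        intervalIntegral.integral_nonneg h4.le fun α _ => Fr_nonneg hT α
      have h6 : 0 ≤ ∫ α in (A + u)..(B + u), Fr T α :=
        intervalIntegral.integral_nonneg (by linarith) fun α _ => Fr_nonneg hT α
      rw [intervalIntegral.integral_symm]
      linarith

/-- **the tents in the known range, uniformly** -/
theorem known (RH : RiemannHypothesis) {h : ℝ} (hh : 0 < h) {ε : ℝ} (hε : 0 < ε) :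
    ∀ᶠ T in atTop, ∀ x y : ℝ, h ≤ x → x ≤ y → y ≤ 1 - h →
      (y ^ 2 - x ^ 2) / 2 - ε ≤ ∫ u in x..y, tt h T u := by
  rcases le_or_gt (1 - h) h with h1 | h1
  · filter_upwards with T x y hx hxy hy
    have h2 : x = y := by linarith
    subst h2
    simp
    linarith
  -- the negative parts
  have hlim : Tendsto (fun T => ∫ u in h..(1 - h), max 0 (u - tt h T u)) atTop
      (𝓝 (∫ u in h..(1 - h), (0 : ℝ))) := by
    refine intervalIntegral.tendsto_integral_filter_of_dominated_convergence (fun _ => (1 : ℝ))
      ?_ ?_ ?_ ?_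
    · refine Eventually.of_forall fun T => ?_
      have := tt_cont hh T
      exact Continuous.aestronglyMeasurable (by fun_prop)
    · filter_upwards [eventually_ge_atTop 10] with T hT
      refine ae_of_all _ fun u hu => ?_
      rw [uIoc_of_le h1.le] at hu
      have h2 := tt_nonneg hh hT u
      rw [Real.norm_eq_abs, abs_of_nonneg (le_max_left _ _)]
      exact max_le (by norm_num) (by linarith [hu.2])
    · exact intervalIntegrable_const
    · have hae : ∀ᵐ u : ℝ, u ≠ 1 - h := by
        have : (volume : Measure ℝ) {1 - h} = 0 := by simp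
        exact compl_mem_ae_iff.2 this
      filter_upwards [hae] with u hne hu
      rw [uIoc_of_le h1.le] at hu
      have hu1 : u < 1 - h := lt_of_le_of_ne hu.2 hne
      have hu0 : 0 < u := hh.trans hu.1
      have h3 := tt_lim RH (h := h) (c := u) hh (by rw [abs_of_pos hu0]; exact hu.1.le)
        (by rw [abs_of_pos hu0]; linarith)
      rw [abs_of_pos hu0] at h3
      have h4 : Tendsto (fun T => max 0 (u - tt h T u)) atTop (𝓝 (max 0 (u - u))) :=
        tendsto_const_nhds.max (tendsto_const_nhds.sub h3)
      simpa using h4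
  rw [intervalIntegral.integral_zero] at hlim
  filter_upwards [hlim.eventually_le_const hε, eventually_ge_atTop 10] with T g1 hT x y hx hxy hy
  have hc := tt_cont hh T
  have ic : ∀ (a b : ℝ) (g : ℝ → ℝ), Continuous g → IntervalIntegrable g volume a b :=
    fun a b g hg => hg.intervalIntegrable a b
  have e1 : ∫ u in x..y, u = (y ^ 2 - x ^ 2) / 2 := integral_id
  have e2 : ∫ u in x..y, u ≤ (∫ u in x..y, tt h T u) + ∫ u in x..y, max 0 (u - tt h T u) := by
    rw [← intervalIntegral.integral_add (ic _ _ _ hc) (ic _ _ _ (by fun_prop))]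
    refine intervalIntegral.integral_mono_on hxy (ic _ _ _ continuous_id) (ic _ _ _ (by fun_prop))
      fun u _ => ?_
    have := le_max_right 0 (u - tt h T u)

    linarith
  have e3 : ∫ u in x..y, max 0 (u - tt h T u) ≤ ∫ u in h..(1 - h), max 0 (u - tt h T u) :=
    intervalIntegral.integral_mono_interval hx hxy hy
      (ae_of_all _ fun u => le_max_left _ _) (ic _ _ _ (by fun_prop))
  linarith

/-- the mass at the origin -/
lemma zero_low (RH : RiemannHypothesis) {h : ℝ} (hh : 0 < h) (h1 : h < 1) {ε : ℝ} (hε : 0 < ε) :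
    ∀ᶠ T in atTop, 1 - ε ≤ h * tt h T 0 := by
  have h2 := (tt_lim0 RH hh h1).const_mul h
  have h3 : 1 ≤ h * cc (tr h) := by
    have := mul_le_mul_of_nonneg_left (Pool.Agent.Y749.AH.cc_tr_le hh).2 hh.le
    have e : h * (1 / h) = 1 := by field_simp
    linarith
  exact h2.eventually_const_le (by linarith)

/-- a tent is bounded by the mass of its support -/
lemma tent_mass {h : ℝ} (hh : 0 < h) {T : ℝ} (hT : 10 ≤ T) (c : ℝ) :
    h * tt h T c ≤ ∫ α in (c - h)..(c + h), Fr T α := by
  have hFc := Fr_cont T
  have htc := tr_cont h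
  have e1 : tt h T c = ∫ α in (c - h)..(c + h), tr h (α - c) * Fr T α := by
    unfold tt
    rw [intervalIntegral.integral_of_le (by linarith), ← integral_Icc_eq_integral_Ioc]
    refine (setIntegral_eq_integral_of_forall_compl_eq_zero fun α hα => ?_).symm
    rw [tr_supp hh, zero_mul]
    rw [mem_Icc, not_and_or, not_le, not_le] at hα
    rw [le_abs]
    rcases hα with h1 | h1
    · right; linarith
    · left; linarith
  rw [e1, ← intervalIntegral.integral_const_mul]
  refine intervalIntegral.integral_mono_on (by linarith)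
    (Continuous.intervalIntegrable (by fun_prop) _ _) (hFc.intervalIntegrable _ _) fun α _ => ?_
  have h2 : h * tr h (α - c) ≤ 1 := by
    unfold tr
    rw [mul_div_cancel₀ _ hh.ne']
    refine max_le (by norm_num) ?_
    have : 0 ≤ |α - c| / h := by positivity
    linarith
  have h3 := Fr_nonneg hT α
  rw [← mul_assoc]
  nlinarith

end Pool.Agent.U252.ST
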