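import Pool.Agent.U252.ST.B

/-! # Stability of the extremal problem -/

set_option autoImplicit false

open MeasureTheory Set Filter Topology

namespace Pool.Agent.U252.ST

open Pool.Agent.Y749.Rig Pool.Agent.U252.LV

/-- the integral `∫_0^2 (2 - α) F(α) dα` -/
noncomputable def JJ (T : ℝ) : ℝ := ∫ α in (0 : ℝ)..2, (2 - α) * Fr T α

lemma tt2_JJ (T : ℝ) : tt 2 T 0 = JJ T / 2 := by
  have h := Pool.Agent.Y749.AH.Fr_tr2 T
  unfold tt JJ
  simp only [sub_zero]
  rw [h]
  ring

lemma ex_le {ε : ℝ} (hε : 0 < ε) : ∀ᶠ T in atTop, ex T ≤ JJ T / 2 - 1 + ε := by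
  filter_upwards [Mp_zero hε] with T hT
  unfold ex
  rw [tt2_JJ]
  linarith

lemma fii (T : ℝ) (a b : ℝ) : IntervalIntegrable (Fr T) volume a b :=
  (Fr_cont T).intervalIntegrable a b

/-- the difference of the tents, for all intervals -/
theorem diff_small (RH : RiemannHypothesis) {h : ℝ} (hh : 0 < h) (h1 : h ≤ 1 / 10) :
    ∀ᶠ T in atTop, JJ T ≤ 2 + 2 * h ^ 3 → ∀ A B : ℝ, A ≤ B →
      |(∫ s in A..B, tt h T s) - ∫ s in (A - 2)..(B - 2), tt h T s| ≤ 29 / 10 * h := by
  have h3 : 0 < h ^ 3 := by positivity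
  filter_upwards [ex_le (show 0 < h ^ 3 / 100 by positivity), tt_zero RH hh (by linarith) hh,
    eventually_ge_atTop 10] with T g1 g2 hT hJ A B hAB
  have e0 := main_ineq hh hT ((A + B) / 2) (R := (B - A) / 2) (by linarith)
  rw [show (A + B) / 2 - (B - A) / 2 = A by ring, show (A + B) / 2 + (B - A) / 2 = B by ring] at e0
  have hc := tt_cont hh T
  rw [intervalIntegral.integral_sub (hc.intervalIntegrable _ _)
    (Continuous.intervalIntegrable (by fun_prop) _ _),
    intervalIntegral.integral_comp_sub_right (fun s => tt h T s) 2] at e0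
  have e1 : ex T ≤ 101 / 100 * h ^ 3 := by linarith
  have e2 := ex_nonneg T
  have e3 := tt_nonneg hh hT 0
  have e4 : ex T * tt h T 0 ≤ 101 / 100 * h ^ 3 * (1 / h + h + h) :=
    mul_le_mul e1 g2 e3 (by positivity)
  have e5 : 101 / 100 * h ^ 3 * (1 / h + h + h) = 101 / 100 * h ^ 2 * (1 + 2 * h ^ 2) := by
    field_simp
    ring
  have e6 : h ^ 2 ≤ 1 / 100 := by nlinarith
  have e7 : 0 ≤ h ^ 2 := by positivity
  have e8 : (∫ s in A..B, tt h T s) - (∫ s in (A - 2)..(B - 2), tt h T s) ≤ 29 / 10 * h ∧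
      -(29 / 10 * h) ≤ (∫ s in A..B, tt h T s) - (∫ s in (A - 2)..(B - 2), tt h T s) := by
    refine abs_le_of_sq_le_sq' ?_ (by positivity) |>.symm
    nlinarith
  exact abs_le.2 ⟨e8.2, e8.1⟩

/-- **Levy distance to the shift by two, uniformly on the line** -/
theorem levy (RH : RiemannHypothesis) {h : ℝ} (hh : 0 < h) (h1 : h ≤ 1 / 10) :
    ∀ᶠ T in atTop, JJ T ≤ 2 + 2 * h ^ 3 → ∀ a b : ℝ, a ≤ b →
      ∫ α in a..b, Fr T α ≤ (∫ α in (a + 2 - 2 * h)..(b + 2 + 2 * h), Fr T α) + 3 * h ∧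
      ∫ α in (a + 2)..(b + 2), Fr T α ≤ (∫ α in (a - 2 * h)..(b + 2 * h), Fr T α) + 3 * h := by
  filter_upwards [diff_small RH hh h1, eventually_ge_atTop 10] with T g1 hT hJ a b hab
  have e1 := abs_le.1 (g1 hJ (a - h + 2) (b + h + 2) (by linarith))
  rw [show a - h + 2 - 2 = a - h by ring, show b + h + 2 - 2 = b + h by ring] at e1
  have e2 := tt_low hh hT (show a - h ≤ b + h by linarith)
  have e3 := tt_up hh hT (show a - h ≤ b + h by linarith)
  have e4 := tt_low hh hT (show a - h + 2 ≤ b + h + 2 by linarith)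
  have e5 := tt_up hh hT (show a - h + 2 ≤ b + h + 2 by linarith)
  rw [show a - h + h = a by ring, show b + h - h = b by ring] at e2
  rw [show a - h - h = a - 2 * h by ring, show b + h + h = b + 2 * h by ring] at e3
  rw [show a - h + 2 + h = a + 2 by ring, show b + h + 2 - h = b + 2 by ring] at e4
  rw [show a - h + 2 - h = a + 2 - 2 * h by ring, show b + h + 2 + h = b + 2 + 2 * h by ring] at e5
  constructor
  · linarith [e1.1]
  · linarith [e1.2]

/-- **lower bounds on `[1, 2]`** -/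
theorem low (RH : RiemannHypothesis) {h : ℝ} (hh : 0 < h) (h1 : h ≤ 1 / 10) :
    ∀ᶠ T in atTop, JJ T ≤ 2 + 2 * h ^ 3 → ∀ a b : ℝ, 1 ≤ a → a ≤ b → b ≤ 2 →
      ((2 - a) ^ 2 - (2 - b) ^ 2) / 2 - 5 * h ≤ ∫ α in a..b, Fr T α := by
  filter_upwards [diff_small RH hh h1, known RH hh (show 0 < h / 20 by positivity),
    eventually_ge_atTop 10] with T g1 g2 hT hJ a b ha hab hb
  rcases le_or_gt (2 * h) (b - a) with h2 | h2
  · have e1 := abs_le.1 (g1 hJ (a + h) (b - h) (by linarith))
    have e2 := tt_up hh hT (show a + h ≤ b - h by linarith)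
    rw [show a + h - h = a by ring, show b - h + h = b by ring] at e2
    have e3 : ∫ s in (a + h - 2)..(b - h - 2), tt h T s =
        ∫ s in (2 - b + h)..(2 - a - h), tt h T s := by
      have h5 := intervalIntegral.integral_comp_neg (a := 2 - b + h) (b := 2 - a - h)
        (fun s => tt h T s)
      rw [show -(2 - a - h) = a + h - 2 by ring, show -(2 - b + h) = b - h - 2 by ring] at h5
      rw [← h5]
      exact intervalIntegral.integral_congr fun s _ => tt_neg hh T s
    have e4 := g2 (2 - b + h) (2 - a - h) (by linarith) (by linarith) (by linarith)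
    rw [e3] at e1
    nlinarith [e1.1]
  · have h3 : 0 ≤ ∫ α in a..b, Fr T α :=
      intervalIntegral.integral_nonneg hab fun α _ => Fr_nonneg hT α
    nlinarith

/-- the integrals over `[0, u]`, `κ ≤ u ≤ 1` -/
theorem low0 (RH : RiemannHypothesis) {κ ε : ℝ} (hκ : 0 < κ) (hε : 0 < ε) :
    ∀ᶠ T in atTop, ∀ u : ℝ, κ ≤ u → u ≤ 1 →
      1 / 2 + u ^ 2 / 2 - ε ≤ ∫ α in (0 : ℝ)..u, Fr T α := by
  obtain ⟨h, hh⟩ : ∃ h : ℝ, h = min (κ / 3) (min (ε / 6) (1 / 10)) := ⟨_, rfl⟩
  have hh0 : 0 < h := by rw [hh]; exact lt_min (by positivity) (lt_min (by positivity) (by norm_num))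
  have hh1 : h ≤ κ / 3 := by rw [hh]; exact min_le_left _ _
  have hh2 : h ≤ ε / 6 := by rw [hh]; exact (min_le_right _ _).trans (min_le_left _ _)
  have hh3 : h ≤ 1 / 10 := by rw [hh]; exact (min_le_right _ _).trans (min_le_right _ _)
  filter_upwards [zero_low RH hh0 (by linarith) (show 0 < ε / 4 by positivity),
    known RH hh0 (show 0 < ε / 4 by positivity), eventually_ge_atTop 10] with T g1 g2 hT u hu hu1
  have e1 := tent_mass hh0 hT 0
  rw [zero_sub, zero_add] at e1
  have e2 : ∫ α in (-h)..h, Fr T α = 2 * ∫ α in (0 : ℝ)..h, Fr T α := by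
    rw [← intervalIntegral.integral_add_adjacent_intervals (fii T (-h) 0) (fii T 0 h)]
    have h5 := intervalIntegral.integral_comp_neg (a := (0 : ℝ)) (b := h) (fun s => Fr T s)
    rw [neg_zero] at h5
    rw [← h5]
    simp_rw [Fr_even]
    ring
  have e3 := g2 (2 * h) (u - h) (by linarith) (by linarith) (by linarith)
  have e4 := tt_up hh0 hT (show 2 * h ≤ u - h by linarith)
  rw [show 2 * h - h = h by ring, show u - h + h = u by ring] at e4
  rw [← intervalIntegral.integral_add_adjacent_intervals (fii T 0 h) (fii T h u)]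
  have e5 : ((u - h) ^ 2 - (2 * h) ^ 2) / 2 ≥ u ^ 2 / 2 - 5 / 2 * h := by nlinarith
  linarith

/-- integration by parts against `2 - α` -/
lemma parts (T a b : ℝ) : ∫ α in a..b, (2 - α) * Fr T α =
    (2 - b) * (∫ α in a..b, Fr T α) + ∫ u in a..b, ∫ α in a..u, Fr T α := by
  have hFc := Fr_cont T
  have hd : ∀ x : ℝ, HasDerivAt (fun u => ∫ α in a..u, Fr T α) (Fr T x) x := fun x =>
    intervalIntegral.integral_hasDerivAt_right (fii T a x)
      hFc.stronglyMeasurable.stronglyMeasurableAtFilter hFc.continuousAt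
  have h := intervalIntegral.integral_mul_deriv_eq_deriv_mul (a := a) (b := b)
    (u := fun x => 2 - x) (v := fun u => ∫ α in a..u, Fr T α) (u' := fun _ => -1)
    (v' := fun x => Fr T x) (fun x _ => by simpa using (hasDerivAt_id x).const_sub 2)
    (fun x _ => hd x) intervalIntegrable_const (fii T a b)
  rw [h]
  rw [intervalIntegral.integral_same, mul_zero, sub_zero]
  simp only [neg_mul, one_mul]
  rw [intervalIntegral.integral_neg]
  ring

lemma prim_cont (T a : ℝ) : Continuous fun u => ∫ α in a..u, Fr T α :=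
  intervalIntegral.continuous_primitive (fun x y => fii T x y) a

/-- **upper bounds on `[1, 2]`** -/
theorem up (RH : RiemannHypothesis) {h : ℝ} (hh : 0 < h) (h1 : h ≤ 1 / 10) :
    ∀ᶠ T in atTop, JJ T ≤ 2 + 2 * h ^ 3 → ∀ a b : ℝ, 1 ≤ a → a ≤ b → b ≤ 2 →
      ∫ α in a..b, (2 - α) * Fr T α ≤ ((2 - a) ^ 3 - (2 - b) ^ 3) / 3 + 11 * h := by
  have h2 : 2 * h ^ 3 ≤ h / 10 := by nlinarith [mul_pos hh hh]
  filter_upwards [low RH hh h1, low0 RH (κ := h / 10) (ε := h / 10) (by positivity) (by positivity),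
    eventually_ge_atTop 10] with T g1 g2 hT hJ a b ha hab hb
  have hFc := Fr_cont T
  have hF0 := Fr_nonneg hT
  have ic : ∀ (x y : ℝ) (g : ℝ → ℝ), Continuous g → IntervalIntegrable g volume x y :=
    fun x y g hg => hg.intervalIntegrable x y
  have hw : Continuous fun α => (2 - α) * Fr T α := by fun_prop
  have g3 := g1 hJ
  have g4 := g2 1 (by linarith) le_rfl
  -- the primitive
  have hΦ : ∀ u : ℝ, 1 ≤ u → u ≤ 2 → 1 + (1 - (2 - u) ^ 2) / 2 - 51 / 10 * h ≤
      ∫ α in (0 : ℝ)..u, Fr T α := by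
    intro u hu hu2
    rw [← intervalIntegral.integral_add_adjacent_intervals (fii T 0 1) (fii T 1 u)]
    have := g3 1 u le_rfl hu hu2
    nlinarith
  -- the part before `a`
  have p1 := parts T 0 a
  have p2 : ∫ u in (0 : ℝ)..a, ∫ α in (0 : ℝ)..u, Fr T α ≥
      (1 / 2 + 1 / 6 - h / 10 - h / 10) +
      ((3 / 2 - 51 / 10 * h) * (a - 1) - (1 - (2 - a) ^ 3) / 6) := by
    have hc := prim_cont T 0
    rw [← intervalIntegral.integral_add_adjacent_intervals (ic 0 1 _ hc) (ic 1 a _ hc),
      ← intervalIntegral.integral_add_adjacent_intervals (ic 0 (h / 10) _ hc) (ic (h / 10) 1 _ hc)]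
    have q1 : 0 ≤ ∫ u in (0 : ℝ)..(h / 10), ∫ α in (0 : ℝ)..u, Fr T α :=
      intervalIntegral.integral_nonneg (by positivity) fun u hu =>
        intervalIntegral.integral_nonneg hu.1 fun α _ => hF0 α
    have q2 : ∫ u in (h / 10)..1, (1 / 2 + u ^ 2 / 2 - h / 10) ≤
        ∫ u in (h / 10)..1, ∫ α in (0 : ℝ)..u, Fr T α :=
      intervalIntegral.integral_mono_on (by linarith) (ic _ _ _ (by fun_prop)) (ic _ _ _ hc)
        fun u hu => g2 u hu.1 hu.2
    have q3 : ∫ u in (h / 10)..1, (1 / 2 + u ^ 2 / 2 - h / 10) =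
        (1 / 2 - h / 10) * (1 - h / 10) + (1 - (h / 10) ^ 3) / 6 := by
      have e : ∀ u : ℝ, 1 / 2 + u ^ 2 / 2 - h / 10 = (1 / 2 - h / 10) + (1 / 2) * u ^ 2 := by
        intro u; ring
      simp_rw [e]
      rw [intervalIntegral.integral_add (ic _ _ _ (by fun_prop)) (ic _ _ _ (by fun_prop)),
        intervalIntegral.integral_const, intervalIntegral.integral_const_mul, integral_pow,
        smul_eq_mul]
      norm_num
      ring
    have q4 : ∫ u in (1 : ℝ)..a, (1 + (1 - (2 - u) ^ 2) / 2 - 51 / 10 * h) ≤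
        ∫ u in (1 : ℝ)..a, ∫ α in (0 : ℝ)..u, Fr T α :=
      intervalIntegral.integral_mono_on ha (ic _ _ _ (by fun_prop)) (ic _ _ _ hc)
        fun u hu => hΦ u hu.1 (by linarith [hu.2])
    have q5 : ∫ u in (1 : ℝ)..a, (1 + (1 - (2 - u) ^ 2) / 2 - 51 / 10 * h) =
        (3 / 2 - 51 / 10 * h) * (a - 1) - (1 - (2 - a) ^ 3) / 6 := by
      have e : ∀ u : ℝ, 1 + (1 - (2 - u) ^ 2) / 2 - 51 / 10 * h =
          (-(1 / 2) - 51 / 10 * h) + 2 * u - (1 / 2) * u ^ 2 := by
        intro u; ring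
      simp_rw [e]
      rw [intervalIntegral.integral_sub (ic _ _ _ (by fun_prop)) (ic _ _ _ (by fun_prop)),
        intervalIntegral.integral_add (ic _ _ _ (by fun_prop)) (ic _ _ _ (by fun_prop)),
        intervalIntegral.integral_const, intervalIntegral.integral_const_mul,
        intervalIntegral.integral_const_mul, integral_pow, integral_id, smul_eq_mul]
      norm_num
      ring
    have q6 : (h / 10) ^ 3 ≤ h / 100 := by
      have : h ^ 2 ≤ 1 / 100 := by nlinarith
      have e : (h / 10) ^ 3 = h / 1000 * h ^ 2 := by ring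
      rw [e]
      nlinarith
    nlinarith
  have p3 := hΦ a ha (by linarith)
  have p4 : (2 - a) * (1 + (1 - (2 - a) ^ 2) / 2 - 51 / 10 * h) ≤
      (2 - a) * ∫ α in (0 : ℝ)..a, Fr T α := mul_le_mul_of_nonneg_left p3 (by linarith)
  -- the part after `b`
  have r1 := parts T b 2
  rw [sub_self, zero_mul, zero_add] at r1
  have r2 : ∫ u in b..2, (((2 - b) ^ 2 - (2 - u) ^ 2) / 2 - 5 * h) ≤
      ∫ u in b..2, ∫ α in b..u, Fr T α :=
    intervalIntegral.integral_mono_on hb (ic _ _ _ (by fun_prop)) (ic _ _ _ (prim_cont T b))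
      fun u hu => g3 b u (by linarith) hu.1 hu.2
  have r3 : ∫ u in b..2, (((2 - b) ^ 2 - (2 - u) ^ 2) / 2 - 5 * h) =
      (2 - b) ^ 3 / 3 - 5 * h * (2 - b) := by
    have e : ∀ u : ℝ, ((2 - b) ^ 2 - (2 - u) ^ 2) / 2 - 5 * h =
        ((2 - b) ^ 2 / 2 - 2 - 5 * h) + 2 * u - (1 / 2) * u ^ 2 := by
      intro u; ring
    simp_rw [e]
    rw [intervalIntegral.integral_sub (ic _ _ _ (by fun_prop)) (ic _ _ _ (by fun_prop)),
      intervalIntegral.integral_add (ic _ _ _ (by fun_prop)) (ic _ _ _ (by fun_prop)),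
      intervalIntegral.integral_const, intervalIntegral.integral_const_mul,
      intervalIntegral.integral_const_mul, integral_pow, integral_id, smul_eq_mul]
    norm_num
    ring
  -- together
  have s1 : JJ T = (∫ α in (0 : ℝ)..a, (2 - α) * Fr T α) + (∫ α in a..b, (2 - α) * Fr T α) +
      ∫ α in b..2, (2 - α) * Fr T α := by
    unfold JJ
    rw [intervalIntegral.integral_add_adjacent_intervals (ic _ _ _ hw) (ic _ _ _ hw),
      intervalIntegral.integral_add_adjacent_intervals (ic _ _ _ hw) (ic _ _ _ hw)]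
  have s2 : ∫ α in a..b, (2 - α) * Fr T α = JJ T - (∫ α in (0 : ℝ)..a, (2 - α) * Fr T α) -
      ∫ α in b..2, (2 - α) * Fr T α := by rw [s1]; ring
  rw [s2, p1, r1]
  nlinarith

/-- **the mass near `2`** -/
theorem mass2 (RH : RiemannHypothesis) {h k : ℝ} (hh : 0 < h) (hk : 0 < k) (hk1 : k < 1) :
    ∀ᶠ T in atTop, JJ T ≤ 2 + 2 * h ^ 3 →
      1 - 9 * h ^ 3 / k ≤ ∫ α in (2 - k)..(2 + k), Fr T α := by
  have h3 : 0 < h ^ 3 := by positivity
  filter_upwards [ex_le (show 0 < h ^ 3 / 20 by positivity),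
    zero_low RH hk hk1 (show 0 < h ^ 3 / (2 * k) by positivity),
    eventually_ge_atTop 10] with T g1 g2 hT hJ
  have := Mp_fin T
  have hp := pw_cont hk T
  have hp0 := pw_nonneg hk T
  have hp1 := pw_le hk T
  have e1 : tt k T 0 - tt k T 2 ≤ 8 / k ^ 2 * ex T := by
    rw [tt_eq hk, tt_eq hk, ← ex_eq]
    unfold KK
    rw [← integral_sub (int_cos hp hp0 hp1 _) (int_cos hp hp0 hp1 _), ← integral_const_mul]
    have iA : Integrable (fun x => wl T x * q x ^ 2) (Mp T) := by
      refine Integrable.of_bound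
        ((wl_cont T).measurable.mul (q_meas.pow_const 2)).aestronglyMeasurable 1
        (ae_of_all _ fun x => ?_)
      rw [norm_mul, Real.norm_eq_abs, Real.norm_eq_abs, abs_of_pos (wl_pos T x), abs_pow]
      have a1 := wl_le T x
      have a2 := wl_pos T x
      have a3 : |q x| ^ 2 ≤ 1 := pow_le_one₀ (abs_nonneg _) (q_abs x)
      have a4 : 0 ≤ |q x| ^ 2 := by positivity
      nlinarith
    refine integral_mono ((int_cos hp hp0 hp1 _).sub (int_cos hp hp0 hp1 _)) (iA.const_mul _)
      fun x => ?_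
    simp only
    rw [mul_zero, zero_mul, Real.cos_zero, pw_wl]
    by_cases hx : x = 0
    · subst hx
      rw [q_zero]
      simp
    · have hpi := Real.pi_pos
      rw [fl_tr hk hx]
      have t1 : Real.cos (2 * Real.pi * 2 * x) = 1 - 2 * Real.sin (2 * Real.pi * x) ^ 2 := by
        have h2 := Real.cos_two_mul (2 * Real.pi * x)
        have h3 := Real.sin_sq_add_cos_sq (2 * Real.pi * x)
        rw [show 2 * Real.pi * 2 * x = 2 * (2 * Real.pi * x) by ring, h2]
        linarith
      have t2 : (Real.sin (Real.pi * k * x)) ^ 2 ≤ 1 := by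
        rw [← sq_abs]
        exact pow_le_one₀ (abs_nonneg _) (Real.abs_sin_le_one _)
      have t3 := (wl_pos T x).le
      rw [t1]
      unfold q
      have t4 : (Real.sin (Real.pi * k * x) / (Real.pi * k * x)) ^ 2 * wl T x * 1 -
          (Real.sin (Real.pi * k * x) / (Real.pi * k * x)) ^ 2 * wl T x *
            (1 - 2 * Real.sin (2 * Real.pi * x) ^ 2) =
          Real.sin (Real.pi * k * x) ^ 2 * (8 / k ^ 2 *
            (wl T x * (Real.sin (2 * Real.pi * x) / (2 * Real.pi * x)) ^ 2)) := by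
        field_simp
        ring
      rw [t4]
      have t5 : 0 ≤ 8 / k ^ 2 *
            (wl T x * (Real.sin (2 * Real.pi * x) / (2 * Real.pi * x)) ^ 2) := by positivity
      nlinarith
  have e2 := tent_mass hk hT 2
  have e3 : ex T ≤ 21 / 20 * h ^ 3 := by linarith
  have e4 : k * (8 / k ^ 2 * ex T) ≤ k * (8 / k ^ 2 * (21 / 20 * h ^ 3)) := by gcongr
  have e5 : k * (8 / k ^ 2 * (21 / 20 * h ^ 3)) = 42 / 5 * (h ^ 3 / k) := by
    field_simp
    ring
  have e6 := mul_le_mul_of_nonneg_left e1 hk.le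
  have e7 : h ^ 3 / (2 * k) = 1 / 2 * (h ^ 3 / k) := by field_simp
  have e8 : 9 * h ^ 3 / k = 9 * (h ^ 3 / k) := by ring
  have e9 : 0 < h ^ 3 / k := by positivity
  rw [e7] at g2
  rw [e8]
  nlinarith

/-- **the pairs away from the half integers** -/
theorem pairs (RH : RiemannHypothesis) {h U : ℝ} (hh : 0 < h) (hU : 0 < U) :
    ∀ᶠ T in atTop, JJ T ≤ 2 + 2 * h ^ 3 → ∀ η : ℝ, 0 < η →
      (Mp T).real {x | |x| ≤ U ∧ η ≤ |Real.sin (2 * Real.pi * x)|} ≤
        42 * (U / η) ^ 2 * h ^ 3 := by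
  have h3 : 0 < h ^ 3 := by positivity
  -- the weight is near one
  have hw : ∀ᶠ T in atTop, ∀ x : ℝ, |x| ≤ U → 99 / 100 ≤ wl T x := by
    have h1 : Tendsto (fun T : ℝ => (2 * Real.pi * U / Real.log T) ^ 2 / 4) atTop (𝓝 0) := by
      have h2 : Tendsto (fun T : ℝ => 2 * Real.pi * U / Real.log T) atTop (𝓝 0) :=
        Real.tendsto_log_atTop.const_div_atTop _
      have h4 := (h2.pow 2).div_const 4
      simpa using h4
    filter_upwards [h1.eventually_le_const (show (0 : ℝ) < 1 / 100 by norm_num),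
      eventually_ge_atTop 10] with T g1 hT x hx
    have hL : 0 < Real.log T := by
      have := one_lt_log (show 3 ≤ T by linarith)
      linarith
    have h5 := ww_sub (2 * Real.pi * x / Real.log T)
    have h6 : (2 * Real.pi * x / Real.log T) ^ 2 ≤ (2 * Real.pi * U / Real.log T) ^ 2 := by
      have hpi := Real.pi_pos
      apply sq_le_sq'
      · have := neg_le_of_abs_le hx
        have h7 : -(2 * Real.pi * U / Real.log T) = 2 * Real.pi * (-U) / Real.log T := by ring
        rw [h7]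
        gcongr
      · have := le_of_abs_le hx
        gcongr
    have h8 := (abs_le.1 h5).2
    unfold wl
    linarith
  filter_upwards [ex_le (show 0 < h ^ 3 / 100 by positivity), hw, eventually_ge_atTop 10]
    with T g1 g2 hT hJ η hη
  have := Mp_fin T
  have hpi := Real.pi_pos
  obtain ⟨S, hS⟩ : ∃ S : Set ℝ, S = {x | |x| ≤ U ∧ η ≤ |Real.sin (2 * Real.pi * x)|} := ⟨_, rfl⟩
  have hSm : MeasurableSet S := by
    rw [hS]
    apply MeasurableSet.inter
    · exact measurableSet_le continuous_abs.measurable measurable_const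
    · have h : Continuous fun x : ℝ => |Real.sin (2 * Real.pi * x)| := by fun_prop
      exact measurableSet_le measurable_const h.measurable
  have iA : Integrable (fun x => wl T x * q x ^ 2) (Mp T) := by
    refine Integrable.of_bound
      ((wl_cont T).measurable.mul (q_meas.pow_const 2)).aestronglyMeasurable 1
      (ae_of_all _ fun x => ?_)
    rw [norm_mul, Real.norm_eq_abs, Real.norm_eq_abs, abs_of_pos (wl_pos T x), abs_pow]
    have a1 := wl_le T x
    have a2 := wl_pos T x
    have a3 : |q x| ^ 2 ≤ 1 := pow_le_one₀ (abs_nonneg _) (q_abs x)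
    have a4 : 0 ≤ |q x| ^ 2 := by positivity
    nlinarith
  obtain ⟨m, hm⟩ : ∃ m : ℝ, m = 99 / 100 * (η / (2 * Real.pi * U)) ^ 2 := ⟨_, rfl⟩
  have hm0 : 0 < m := by rw [hm]; positivity
  have e1 : m * (Mp T).real S ≤ ex T := by
    rw [← ex_eq]
    calc m * (Mp T).real S = ∫ x in S, m ∂(Mp T) := by
          rw [setIntegral_const, smul_eq_mul, mul_comm]
      _ ≤ ∫ x in S, wl T x * q x ^ 2 ∂(Mp T) := by
          refine setIntegral_mono_on (integrable_const _).integrableOn iA.integrableOn hSm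
            fun x hx => ?_
          rw [hS] at hx
          obtain ⟨h1, h2⟩ := hx
          have h4 : x ≠ 0 := by
            rintro rfl
            rw [mul_zero, Real.sin_zero, abs_zero] at h2
            linarith
          have h5 : 0 < |x| := abs_pos.2 h4
          have h6 : η / (2 * Real.pi * U) ≤ |q x| := by
            unfold q
            rw [abs_div]
            have h7 : |2 * Real.pi * x| ≤ 2 * Real.pi * U := by
              rw [abs_mul, abs_of_pos (by positivity : 0 < 2 * Real.pi)]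
              gcongr
            have h8 : 0 < |2 * Real.pi * x| := by
              rw [abs_mul, abs_of_pos (by positivity : 0 < 2 * Real.pi)]
              positivity
            exact div_le_div₀ (abs_nonneg _) h2 h8 h7
          have h9 : (η / (2 * Real.pi * U)) ^ 2 ≤ q x ^ 2 := by
            rw [← sq_abs (q x)]
            exact pow_le_pow_left₀ (by positivity) h6 2
          rw [hm]
          exact mul_le_mul (g2 x h1) h9 (by positivity) (wl_pos T x).le
      _ ≤ ∫ x, wl T x * q x ^ 2 ∂(Mp T) :=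
          setIntegral_le_integral iA (ae_of_all _ fun x => mul_nonneg (wl_pos T x).le (by positivity))
  have e2 : ex T ≤ 101 / 100 * h ^ 3 := by linarith
  rw [← hS]
  have e3 : (Mp T).real S ≤ (101 / 100 * h ^ 3) / m := by
    rw [le_div_iff₀ hm0]
    linarith
  refine e3.trans ?_
  rw [hm]
  have e4 : 101 / 100 * h ^ 3 / (99 / 100 * (η / (2 * Real.pi * U)) ^ 2) =
      (404 / 99 * Real.pi ^ 2) * ((U / η) ^ 2 * h ^ 3) := by
    field_simp
    ring
  rw [e4]
  have e5 : Real.pi ^ 2 ≤ 10 := by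
    have := Real.pi_lt_d2
    nlinarith
  have e6 : 0 ≤ (U / η) ^ 2 * h ^ 3 := by positivity
  nlinarith

end Pool.Agent.U252.ST
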